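import Pool.Agent.Y271.CO.Res

/-!
# Accumulation points of the spectrum are stable under finite rank perturbations
-/

set_option autoImplicit false

open MeasureTheory Set Metric Filter Topology Matrix

namespace Pool.Agent.Y271.CO

variable {X : Type} [NormedAddCommGroup X] [NormedSpace ℂ X] [CompleteSpace X] {n : ℕ}

omit [CompleteSpace X] in
/-- the second resolvent identity -/
theorem res_two (A : X →L[ℂ] X) (F : X →L[ℂ] (Fin n → ℂ)) (J : (Fin n → ℂ) →L[ℂ] X)
    (κ z : ℂ) (hz : z ∈ resolventSet ℂ A) (hz' : z ∈ resolventSet ℂ (A + κ • J.comp F)) (v : X) :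
    resolvent (A + κ • J.comp F) z v - resolvent A z v =
      κ • resolvent (A + κ • J.comp F) z (J (F (resolvent A z v))) := by
  have hu : IsUnit (algebraMap ℂ (X →L[ℂ] X) z - A) := by
    simpa [spectrum.mem_resolventSet_iff] using hz
  have hu' : IsUnit (algebraMap ℂ (X →L[ℂ] X) z - (A + κ • J.comp F)) := by
    simpa [spectrum.mem_resolventSet_iff] using hz'
  have h1 : (algebraMap ℂ (X →L[ℂ] X) z - A) * resolvent A z = 1 := Ring.mul_inverse_cancel _ hu
  have h2 : resolvent (A + κ • J.comp F) z *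
      (algebraMap ℂ (X →L[ℂ] X) z - (A + κ • J.comp F)) = 1 := Ring.inverse_mul_cancel _ hu'
  obtain ⟨w, hw⟩ : ∃ w, w = resolvent A z v := ⟨_, rfl⟩
  have h3 : (algebraMap ℂ (X →L[ℂ] X) z - A) w = v := by
    rw [hw]
    exact congrArg (fun Z : X →L[ℂ] X => Z v) h1
  have h4 : resolvent (A + κ • J.comp F) z
      ((algebraMap ℂ (X →L[ℂ] X) z - (A + κ • J.comp F)) w) = w :=
    congrArg (fun Z : X →L[ℂ] X => Z w) h2
  have h5 : (algebraMap ℂ (X →L[ℂ] X) z - (A + κ • J.comp F)) w =
      (algebraMap ℂ (X →L[ℂ] X) z - A) w - κ • J (F w) := by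
    simp only [_root_.sub_apply, _root_.add_apply, _root_.smul_apply,
      ContinuousLinearMap.comp_apply]
    abel
  rw [h5, h3, map_sub, map_smul] at h4
  rw [← hw, ← h4]
  rw [h4]
  have h6 := h4
  rw [sub_eq_iff_eq_add] at h6
  rw [h6]
  abel

omit [CompleteSpace X] in
theorem det_ne (A : X →L[ℂ] X) (F : X →L[ℂ] (Fin n → ℂ)) (J : (Fin n → ℂ) →L[ℂ] X)
    (κ z : ℂ) (hz : z ∈ resolventSet ℂ A) (hz' : z ∈ resolventSet ℂ (A + κ • J.comp F)) :
    (1 - (-κ) • Mx F J (resolvent (A + κ • J.comp F) z)).det ≠ 0 := by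
  have h1 : (1 - (-κ) • Mx F J (resolvent (A + κ • J.comp F) z)) *
      (1 - κ • Mx F J (resolvent A z)) = 1 := by
    have h2 : ∀ N N' : Matrix (Fin n) (Fin n) ℂ, op N = op N' → N = N' := by
      intro N N' h
      have h3 : Matrix.toLin' N = Matrix.toLin' N' := by
        apply LinearMap.ext
        intro v
        have := congrArg (fun Z => Z v) h
        simpa [op] using this
      exact Matrix.toLin'.injective h3
    apply h2
    rw [op_mul, op_sub_smul, op_sub_smul, op_Mx, op_Mx, op_one]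
    ext v : 1
    have h3 := res_two A F J κ z hz hz' (J v)
    have h4 := congrArg F h3
    rw [map_sub, map_smul] at h4
    simp only [ContinuousLinearMap.comp_apply, _root_.sub_apply, _root_.smul_apply,
      ContinuousLinearMap.id_apply, map_sub, map_smul, neg_smul, sub_neg_eq_add]
    rw [sub_eq_iff_eq_add] at h4
    rw [h4]
    simp only [smul_add]
    abel
  have h3 := congrArg Matrix.det h1
  rw [Matrix.det_mul, Matrix.det_one] at h3
  intro h0
  rw [h0, zero_mul] at h3
  exact zero_ne_one h3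

theorem det_analytic (T : X →L[ℂ] X) (F : X →L[ℂ] (Fin n → ℂ)) (J : (Fin n → ℂ) →L[ℂ] X)
    (κ : ℂ) : DifferentiableOn ℂ (fun z => (1 - κ • Mx F J (resolvent T z)).det)
      (resolventSet ℂ T) := by
  have h1 : DifferentiableOn ℂ (fun z => resolvent T z) (resolventSet ℂ T) := fun z hz =>
    (spectrum.hasDerivAt_resolvent_const_left hz).differentiableAt.differentiableWithinAt
  have h2 : ∀ i j, DifferentiableOn ℂ (fun z => (1 - κ • Mx F J (resolvent T z)) i j)
      (resolventSet ℂ T) := by
    intro i j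
    have h3 : DifferentiableOn ℂ (fun z => Mx F J (resolvent T z) i j) (resolventSet ℂ T) := by
      have h4 : ∀ R : X →L[ℂ] X, Mx F J R i j =
          ((ContinuousLinearMap.proj (R := ℂ) (φ := fun _ : Fin n => ℂ) i).comp
            (F.comp ((ContinuousLinearMap.apply ℂ X (J (Pi.single j 1)))))) R := by
        intro R
        rfl
      simp only [h4]
      exact (ContinuousLinearMap.differentiable _).comp_differentiableOn h1
    simp only [Matrix.sub_apply, Matrix.smul_apply, smul_eq_mul]
    exact (differentiableOn_const _).sub (h3.const_mul κ)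
  simp only [Matrix.det_apply]
  refine DifferentiableOn.fun_sum fun σ _ => ?_
  refine DifferentiableOn.const_smul ?_ _
  exact DifferentiableOn.fun_finsetProd fun i _ => h2 _ _

/-- an accumulation point of the spectrum near which the spectrum is a null set is a point of the
spectrum of every finite rank perturbation -/
theorem persist (A : X →L[ℂ] X) (F : X →L[ℂ] (Fin n → ℂ)) (J : (Fin n → ℂ) →L[ℂ] X)
    (κ c : ℂ) (U : Set ℂ) (hU : IsOpen U) (hcU : c ∈ U) (h0 : volume (spectrum ℂ A ∩ U) = 0)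
    (hacc : AccPt c (𝓟 (spectrum ℂ A))) : c ∈ spectrum ℂ (A + κ • J.comp F) := by
  intro hc
  obtain ⟨T, hT⟩ : ∃ T, T = A + κ • J.comp F := ⟨_, rfl⟩
  rw [← hT] at hc
  have hA : A = T + (-κ) • J.comp F := by
    rw [hT, neg_smul]
    abel
  have hopen : IsOpen (resolventSet ℂ T) := spectrum.isOpen_resolventSet T
  have han : AnalyticAt ℂ (fun z => (1 - (-κ) • Mx F J (resolvent T z)).det) c :=
    (det_analytic T F J (-κ)).analyticAt (hopen.mem_nhds hc)
  -- zeros at the points of the spectrum of `A`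
  have hz1 : ∀ z ∈ resolventSet ℂ T, z ∈ spectrum ℂ A →
      (1 - (-κ) • Mx F J (resolvent T z)).det = 0 := by
    intro z hz hzA
    by_contra hne
    have hu : IsUnit (1 - (-κ) • Mx F J (resolvent T z)).det := isUnit_iff_ne_zero.2 hne
    obtain ⟨h1, _⟩ := res_formula T F J (-κ) z hz _ (Matrix.mul_nonsing_inv _ hu)
      (Matrix.nonsing_inv_mul _ hu)
    rw [← hA] at h1
    exact hzA h1
  have hz2 : ∀ z ∈ resolventSet ℂ T, (1 - (-κ) • Mx F J (resolvent T z)).det = 0 →
      z ∈ spectrum ℂ A := by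
    intro z hz h1 hzA
    have h2 := det_ne A F J κ z hzA (by rw [← hT]; exact hz)
    rw [← hT] at h2
    exact h2 h1
  rcases han.eventually_eq_zero_or_eventually_ne_zero with h | h
  · have h1 : spectrum ℂ A ∩ U ∈ 𝓝 c := by
      filter_upwards [h, hopen.mem_nhds hc, hU.mem_nhds hcU] with z a1 a2 a3
      exact ⟨hz2 z a2 a1, a3⟩
    have := Measure.measure_pos_of_mem_nhds (volume : Measure ℂ) h1
    exact this.ne' h0
  · rw [accPt_iff_frequently] at hacc
    rw [eventually_nhdsWithin_iff] at h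
    have h1 : ∀ᶠ z in 𝓝 c, z ∈ resolventSet ℂ T := hopen.mem_nhds hc
    obtain ⟨z, ⟨a1, a2⟩, a3, a4⟩ := (hacc.and_eventually (h.and h1)).exists
    exact a3 a1 (hz1 z a4 a2)

end Pool.Agent.Y271.CO
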