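import Pool.Agent.Y271.CO.Iso
import Pool.Agent.W32.HI.G3
import Pool.Agent.W806.HI.G2
import Pool.Agent.W577.HI.G1
import Pool.Agent.W427.HY.MINK

/-!
# Normal operators with thin spectrum
-/

set_option autoImplicit false

open MeasureTheory Set Metric Filter Topology Matrix

namespace Pool.Agent.Y271.CO

variable {H : Type} [NormedAddCommGroup H] [InnerProductSpace ℂ H] [CompleteSpace H]

/-- the upper Minkowski dimension of `E` is less than two -/
def Thin (E : Set ℂ) : Prop :=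
  ∃ C ε : ℝ, 0 < ε ∧ ∀ δ : ℝ, 0 < δ → δ ≤ 1 →
    volume {z : ℂ | infDist z E ≤ δ} ≤ ENNReal.ofReal (C * δ ^ ε)

theorem log_int [Nontrivial H] (N : H →L[ℂ] H) (hN : IsStarNormal N) (ht : Thin (spectrum ℂ N))
    (R : ℝ) :
    volume (spectrum ℂ N ∩ ball 0 R) = 0 ∧
      IntegrableOn (fun z : ℂ => Real.posLog ‖resolvent N z‖) (ball 0 R) := by
  obtain ⟨C, ε, hε, hC⟩ := ht
  have hne : (spectrum ℂ N).Nonempty := spectrum.nonempty N
  have hcomp : IsCompact (spectrum ℂ N) := spectrum.isCompact N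
  obtain ⟨k, hk⟩ : ∃ k, k = ε / 2 := ⟨_, rfl⟩
  have hk0 : 0 < k := by rw [hk]; linarith
  refine Pool.Agent.W427.HY.MINK.main Pool.Agent.W610.HY.Fin.hMEAS (H →L[ℂ] H) N (ball 0 R)
    (spectrum ℂ N) (max C (1 / k)) k k isOpen_ball isBounded_ball hcomp.isClosed hk0.le hk0
    inter_subset_left ?_ ?_
  · intro z _ hz
    obtain ⟨h1, h2⟩ := Pool.Agent.W32.HI.G3.main H N (spectrum ℂ N) hN hcomp hne subset_rfl z hz
    have hd : 0 < infDist z (spectrum ℂ N) := (hcomp.isClosed.notMem_iff_infDist_pos hne).1 hz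
    refine h2.trans ?_
    have h3 : Real.log (1 / infDist z (spectrum ℂ N)) ≤
        max C (1 / k) * infDist z (spectrum ℂ N) ^ (-k) := by
      have h4 := Real.log_le_rpow_div (x := 1 / infDist z (spectrum ℂ N)) (by positivity) hk0
      have h5 : (1 / infDist z (spectrum ℂ N)) ^ k = infDist z (spectrum ℂ N) ^ (-k) := by
        rw [one_div, Real.inv_rpow hd.le, Real.rpow_neg hd.le]
      rw [h5] at h4
      refine h4.trans ?_
      rw [div_eq_mul_one_div, mul_comm]
      exact mul_le_mul_of_nonneg_right (le_max_right _ _) (by positivity)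
    calc 1 / infDist z (spectrum ℂ N) = Real.exp (Real.log (1 / infDist z (spectrum ℂ N))) :=
          (Real.exp_log (by positivity)).symm
      _ ≤ _ := Real.exp_le_exp.2 h3
  · intro δ hδ hδ1
    refine (measure_mono fun z hz => ?_).trans ((hC δ hδ hδ1).trans ?_)
    · exact hz.2
    · apply ENNReal.ofReal_le_ofReal
      have h6 : k + k = ε := by rw [hk]; ring
      rw [h6]
      exact mul_le_mul_of_nonneg_right (le_max_left _ _) (by positivity)

theorem range_smul_fin {X : Type} [NormedAddCommGroup X] [NormedSpace ℂ X] (K : X →L[ℂ] X)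
    (hK : FiniteDimensional ℂ (LinearMap.range (K : X →ₗ[ℂ] X))) (κ : ℂ) :
    FiniteDimensional ℂ (LinearMap.range ((κ • K : X →L[ℂ] X) : X →ₗ[ℂ] X)) := by
  have h1 : LinearMap.range ((κ • K : X →L[ℂ] X) : X →ₗ[ℂ] X) ≤
      LinearMap.range (K : X →ₗ[ℂ] X) := by
    rintro _ ⟨v, rfl⟩
    refine ⟨κ • v, ?_⟩
    simp
  exact Submodule.finiteDimensional_of_le h1

theorem finrank_compact {X : Type} [NormedAddCommGroup X] [NormedSpace ℂ X]
    (G : X →L[ℂ] X) (h : FiniteDimensional ℂ (LinearMap.range (G : X →ₗ[ℂ] X))) :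
    IsCompactOperator G := by
  have := h
  let P := LinearMap.range (G : X →ₗ[ℂ] X)
  let G' : X →L[ℂ] P := G.codRestrict P (fun x => LinearMap.mem_range_self _ x)
  have : ProperSpace P := FiniteDimensional.proper ℂ P
  have h1 : IsCompactOperator (P.subtypeL : P →L[ℂ] X) := by
    rw [isCompactOperator_iff_exists_mem_nhds_image_subset_compact]
    refine ⟨Metric.closedBall 0 1, Metric.closedBall_mem_nhds _ one_pos, ?_⟩
    exact ⟨_, (isCompact_closedBall (0 : P) 1).image P.subtypeL.continuous, subset_rfl⟩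
  have h2 : (G : X → X) = (P.subtypeL : P → X) ∘ (G' : X → P) := by
    ext x
    rfl
  rw [h2]
  exact h1.comp_clm G'

/-- **Normal operators.** -/
theorem normal (N K : H →L[ℂ] H) (hN : IsStarNormal N) (ht : Thin (spectrum ℂ N))
    (hK : FiniteDimensional ℂ (LinearMap.range (K : H →ₗ[ℂ] H))) :
    dimH {κ : ℂ | ¬ HasHyper (N + κ • K) ∧ ¬ ∃ c : ℂ, N + κ • K = c • (1 : H →L[ℂ] H)} = 0 := by
  rcases subsingleton_or_nontrivial H with hH | hH
  · have : {κ : ℂ | ¬ HasHyper (N + κ • K) ∧ ¬ ∃ c : ℂ, N + κ • K = c • (1 : H →L[ℂ] H)} = ∅ := by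
      ext κ
      simp only [Set.mem_ofPred_eq, mem_empty_iff_false, iff_false, not_and, not_not]
      intro _
      refine ⟨0, ?_⟩
      ext v
      exact Subsingleton.elim _ _
    rw [this, dimH_empty]
  obtain ⟨n, F, J, hFJ⟩ := exists_FJ K hK
  have hcov : {κ : ℂ | ¬ HasHyper (N + κ • K) ∧ ¬ ∃ c : ℂ, N + κ • K = c • (1 : H →L[ℂ] H)} ⊆
      ⋃ R : ℕ, {κ : ℂ | ∃ᶠ k in atTop, ENNReal.ofReal (wgt k) ≤
        volume (Z N F J (ball 0 (R : ℝ)) κ k)} := by
    rintro κ ⟨h1, h2⟩
    by_contra hcon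
    simp only [mem_iUnion, not_exists] at hcon
    obtain ⟨R, hR⟩ := exists_nat_gt ‖N + κ • K‖
    obtain ⟨l1, l2⟩ := log_int N hN ht R
    obtain ⟨g1, g2⟩ := good N F J isOpen_ball measure_ball_lt_top.ne l1 l2 κ (hcon R)
    rw [← hFJ] at g1 g2
    have hsub : spectrum ℂ (N + κ • K) ⊆ ball 0 (R : ℝ) := by
      intro z hz
      rw [mem_ball_zero_iff]
      exact (spectrum.norm_le_norm_of_mem hz).trans_lt hR
    by_cases hn : (spectrum ℂ (N + κ • K)).Nontrivial
    · refine h1 (Pool.Agent.W610.HY.Cor.glob Pool.Agent.W610.HY.Reduct.loc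
        Pool.Agent.W19.HY.RES.main Pool.Agent.W610.HY.Fin.hMEAS (N + κ • K) (ball 0 (R : ℝ))
        isOpen_ball ?_ g1 g2)
      rwa [inter_eq_left.2 hsub]
    · obtain ⟨c, hc⟩ := spectrum.nonempty (N + κ • K)
      have hsc : spectrum ℂ (N + κ • K) = {c} := by
        rw [not_nontrivial_iff] at hn
        exact hn.eq_singleton_of_mem hc
      have hKc : IsCompactOperator (κ • K : H →L[ℂ] H) := finrank_compact _ (range_smul_fin K hK κ)
      have h3 := Pool.Agent.W806.HI.main H N (κ • K) c hN hKc hsc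
      have h4 : IsCompactOperator (N + κ • K - c • (1 : H →L[ℂ] H)) := by
        have h5 := h3.add hKc
        have e : N + κ • K - c • (1 : H →L[ℂ] H) = (N - c • (1 : H →L[ℂ] H)) + κ • K := by abel
        rw [e]
        exact h5
      have h6 : ¬ Pool.Agent.W402.HI.IsScalar (N + κ • K - c • (1 : H →L[ℂ] H)) := by
        rintro ⟨a, ha⟩
        apply h2
        refine ⟨a + c, ?_⟩
        rw [add_smul, ← ha]
        abel
      obtain ⟨V, v1, v2, v3, v4⟩ := Pool.Agent.W577.HI.G1.main H _ h4 h6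
      refine h1 ⟨V, v1, v2, v3, fun Q hQ v hv => v4 Q ?_ v hv⟩
      rw [mul_sub, sub_mul, hQ, mul_smul_comm, smul_mul_assoc, mul_one, one_mul]
  refine le_antisymm ((dimH_mono hcov).trans ?_) zero_le
  rw [dimH_iUnion]
  refine iSup_le fun R => le_of_eq ?_
  exact dim_zero (W := fun κ k => volume (Z N F J (ball 0 (R : ℝ)) κ k))
    (N := n * volume (ball (0 : ℂ) (R : ℝ)))
    (ENNReal.mul_ne_top (ENNReal.natCast_ne_top n) measure_ball_lt_top.ne)
    (fun k s hs => packing N F J isOpen_ball k s hs)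

end Pool.Agent.Y271.CO
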