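import Pool.Agent.Y271.CO.Meas

/-!
# A covering argument
-/

set_option autoImplicit false

open MeasureTheory Set Metric Filter Topology

namespace Pool.Agent.Y271.CO

section

variable (W : ℂ → ℕ → ENNReal) (N : ENNReal)

/-- the weights -/
noncomputable def wgt (k : ℕ) : ℝ := 1 / ((k : ℝ) + 1) ^ 2

theorem wgt_pos (k : ℕ) : 0 < wgt k := by
  unfold wgt
  positivity

variable {W N}

theorem card_le (hN : N ≠ ⊤) (hpack : ∀ k s, Sep s k → ∑ κ ∈ s, W κ k ≤ N) (k : ℕ) (s : Finset ℂ)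
    (hs : Sep s k) (hs' : ∀ κ ∈ s, ENNReal.ofReal (wgt k) ≤ W κ k) :
    (s.card : ℝ) ≤ N.toReal * ((k : ℝ) + 1) ^ 2 := by
  have h1 : (s.card : ENNReal) * ENNReal.ofReal (wgt k) ≤ N := by
    calc (s.card : ENNReal) * ENNReal.ofReal (wgt k) = ∑ _κ ∈ s, ENNReal.ofReal (wgt k) := by
          rw [Finset.sum_const, nsmul_eq_mul]
      _ ≤ ∑ κ ∈ s, W κ k := Finset.sum_le_sum hs'
      _ ≤ N := hpack k s hs
  have h2 := ENNReal.toReal_mono hN h1
  rw [ENNReal.toReal_mul, ENNReal.toReal_natCast, ENNReal.toReal_ofReal (wgt_pos k).le] at h2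
  unfold wgt at h2
  rw [mul_one_div, div_le_iff₀ (by positivity)] at h2
  exact h2

/-- a finite net -/
theorem exists_net (hN : N ≠ ⊤) (hpack : ∀ k s, Sep s k → ∑ κ ∈ s, W κ k ≤ N) (k : ℕ) :
    ∃ s : Finset ℂ, (s.card : ℝ) ≤ N.toReal * ((k : ℝ) + 1) ^ 2 ∧
      ∀ κ : ℂ, ENNReal.ofReal (wgt k) ≤ W κ k → ∃ c ∈ s, ‖κ - c‖ ≤ 2 * (1 / 2 : ℝ) ^ k := by
  classical
  set C : Set ℕ := {m | ∃ s : Finset ℂ, (Sep s k ∧ ∀ κ ∈ s, ENNReal.ofReal (wgt k) ≤ W κ k) ∧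
    s.card = m} with hC
  have hne : C.Nonempty := ⟨0, ∅, ⟨fun a ha => by simp at ha, fun a ha => by simp at ha⟩, rfl⟩
  have hbd : BddAbove C := by
    refine ⟨⌈N.toReal * ((k : ℝ) + 1) ^ 2⌉₊, ?_⟩
    rintro m ⟨s, ⟨h1, h2⟩, rfl⟩
    have h3 := card_le hN hpack k s h1 h2
    exact_mod_cast h3.trans (Nat.le_ceil _)
  obtain ⟨s, ⟨h1, h2⟩, h3⟩ := Nat.sSup_mem hne hbd
  refine ⟨s, card_le hN hpack k s h1 h2, fun κ hκ => ?_⟩
  by_contra hcon
  push Not at hcon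
  have hns : κ ∉ s := by
    intro hmem
    have := hcon κ hmem
    rw [sub_self, norm_zero] at this
    have h4 : (0 : ℝ) < 2 * (1 / 2) ^ k := by positivity
    linarith
  have h5 : (insert κ s).card ∈ C := by
    refine ⟨insert κ s, ⟨?_, ?_⟩, rfl⟩
    · intro a ha b hb hab
      rcases Finset.mem_insert.1 ha with ha | ha
      · rcases Finset.mem_insert.1 hb with hb | hb
        · exact absurd (ha.trans hb.symm) hab
        · rw [ha]
          exact hcon b hb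
      · rcases Finset.mem_insert.1 hb with hb | hb
        · rw [hb, norm_sub_rev]
          exact hcon a ha
        · exact h1 a ha b hb hab
    · intro a ha
      rcases Finset.mem_insert.1 ha with ha | ha
      · rw [ha]
        exact hκ
      · exact h2 a ha
  have h6 := le_csSup hbd h5
  rw [Finset.card_insert_of_notMem hns, ← h3] at h6
  omega

theorem ediam_cb (c : ℂ) (r : ℝ) :
    Metric.ediam (closedBall c r) ≤ ENNReal.ofReal (2 * r) := by
  apply Metric.ediam_le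
  intro x hx y hy
  rw [edist_dist]
  apply ENNReal.ofReal_le_ofReal
  rw [mem_closedBall] at hx hy
  have h2 := dist_triangle_right x y c
  linarith

theorem sum_fin {q : ℝ} (hq0 : 0 ≤ q) (hq1 : q < 1) (B : ℝ) :
    Summable fun k : ℕ => B * ((k : ℝ) + 1) ^ 2 * q ^ k := by
  have h0 : Summable fun k : ℕ => (k : ℝ) ^ 2 * q ^ k :=
    summable_pow_mul_geometric_of_norm_lt_one 2 (by rw [Real.norm_eq_abs, abs_of_nonneg hq0]; exact hq1)
  have h1 : Summable fun k : ℕ => (k : ℝ) ^ 1 * q ^ k :=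
    summable_pow_mul_geometric_of_norm_lt_one 1 (by rw [Real.norm_eq_abs, abs_of_nonneg hq0]; exact hq1)
  have h2 : Summable fun k : ℕ => q ^ k := summable_geometric_of_lt_one hq0 hq1
  have h3 := ((h0.add (h1.mul_left 2)).add h2).mul_left B
  refine h3.congr fun k => ?_
  ring

theorem dim_zero (hN : N ≠ ⊤) (hpack : ∀ k s, Sep s k → ∑ κ ∈ s, W κ k ≤ N) :
    dimH {κ : ℂ | ∃ᶠ k in atTop, ENNReal.ofReal (wgt k) ≤ W κ k} = 0 := by
  choose s hs1 hs2 using exists_net hN hpack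
  by_contra hcon
  obtain ⟨d, hd0, hd1⟩ := ENNReal.lt_iff_exists_nnreal_btwn.1 (pos_iff_ne_zero.2 hcon)
  have hd : 0 < (d : ℝ) := by
    have : 0 < d := by exact_mod_cast hd0
    exact_mod_cast this
  refine absurd hd1 (not_lt.2 (dimH_le_of_hausdorffMeasure_ne_top ?_))
  obtain ⟨q, hq⟩ : ∃ q : ℝ, q = (1 / 2 : ℝ) ^ (d : ℝ) := ⟨_, rfl⟩
  have hq0 : 0 ≤ q := by rw [hq]; positivity
  have hq1 : q < 1 := by
    rw [hq]
    exact Real.rpow_lt_one (by norm_num) (by norm_num) hd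
  have hsum := sum_fin hq0 hq1 (N.toReal * (4 : ℝ) ^ (d : ℝ))
  have hterm : ∀ k : ℕ, ((s k).card : ENNReal) * ENNReal.ofReal (4 * (1 / 2 : ℝ) ^ k) ^ (d : ℝ) ≤
      ENNReal.ofReal (N.toReal * (4 : ℝ) ^ (d : ℝ) * ((k : ℝ) + 1) ^ 2 * q ^ k) := by
    intro k
    rw [ENNReal.ofReal_rpow_of_nonneg (by positivity) hd.le, ← ENNReal.ofReal_natCast,
      ← ENNReal.ofReal_mul (Nat.cast_nonneg _)]
    apply ENNReal.ofReal_le_ofReal
    have e1 : (4 * (1 / 2 : ℝ) ^ k) ^ (d : ℝ) = 4 ^ (d : ℝ) * q ^ k := by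
      rw [Real.mul_rpow (by norm_num) (by positivity), hq, ← Real.rpow_natCast (1 / 2 : ℝ) k,
        ← Real.rpow_mul (by norm_num), ← Real.rpow_natCast _ k, ← Real.rpow_mul (by norm_num),
        mul_comm (k : ℝ)]
    rw [e1]
    have h5 : (0 : ℝ) ≤ 4 ^ (d : ℝ) * q ^ k := by positivity
    have h6 := mul_le_mul_of_nonneg_right (hs1 k) h5
    calc ((s k).card : ℝ) * (4 ^ (d : ℝ) * q ^ k) ≤ _ := h6
      _ = _ := by ring
  have hfin : ∑' k : ℕ, ((s k).card : ENNReal) * ENNReal.ofReal (4 * (1 / 2 : ℝ) ^ k) ^ (d : ℝ) ≠ ⊤ :=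
    ne_top_of_le_ne_top hsum.tsum_ofReal_ne_top (ENNReal.tsum_le_tsum hterm)
  refine ne_top_of_le_ne_top hfin ?_
  have hcov := Measure.hausdorffMeasure_le_liminf_tsum (X := ℂ) (β := ℕ)
    (ι := fun K => Σ j : ℕ, {c : ℂ // c ∈ s (K + j)}) (d : ℝ)
    {κ : ℂ | ∃ᶠ k in atTop, ENNReal.ofReal (wgt k) ≤ W κ k} (l := atTop)
    (fun K => ENNReal.ofReal (4 * (1 / 2 : ℝ) ^ K)) (by
      have h1 : Tendsto (fun K : ℕ => 4 * (1 / 2 : ℝ) ^ K) atTop (𝓝 (4 * 0)) :=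
        (tendsto_pow_atTop_nhds_zero_of_lt_one (by norm_num) (by norm_num)).const_mul 4
      rw [mul_zero] at h1
      have h2 := ENNReal.tendsto_ofReal h1
      rwa [ENNReal.ofReal_zero] at h2)
    (fun K p => closedBall (p.2 : ℂ) (2 * (1 / 2 : ℝ) ^ (K + p.1)))
    (Eventually.of_forall fun K p => by
      refine (ediam_cb _ _).trans (ENNReal.ofReal_le_ofReal ?_)
      have h1 : (1 / 2 : ℝ) ^ (K + p.1) ≤ (1 / 2) ^ K :=
        pow_le_pow_of_le_one (by norm_num) (by norm_num) (Nat.le_add_right _ _)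
      linarith)
    (Eventually.of_forall fun K κ hκ => by
      obtain ⟨k, hk, h1⟩ := (Filter.frequently_atTop.1 hκ) K
      obtain ⟨j, rfl⟩ := Nat.exists_eq_add_of_le hk
      obtain ⟨c, hc, h2⟩ := hs2 (K + j) κ h1
      refine mem_iUnion.2 ⟨⟨j, ⟨c, hc⟩⟩, ?_⟩
      rw [mem_closedBall, dist_eq_norm]
      exact h2)
  refine hcov.trans ?_
  refine Filter.liminf_le_of_frequently_le' (Eventually.frequently (Eventually.of_forall fun K => ?_))
  rw [ENNReal.tsum_sigma' (fun p : (Σ j : ℕ, {c : ℂ // c ∈ s (K + j)}) =>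
    Metric.ediam (closedBall (p.2 : ℂ) (2 * (1 / 2 : ℝ) ^ (K + p.1))) ^ (d : ℝ))]
  calc ∑' j : ℕ, ∑' c : {c : ℂ // c ∈ s (K + j)},
        Metric.ediam (closedBall (c : ℂ) (2 * (1 / 2 : ℝ) ^ (K + j))) ^ (d : ℝ)
      ≤ ∑' j : ℕ, ((s (K + j)).card : ENNReal) *
          ENNReal.ofReal (4 * (1 / 2 : ℝ) ^ (K + j)) ^ (d : ℝ) := by
        refine ENNReal.tsum_le_tsum fun j => ?_
        rw [tsum_fintype]
        calc ∑ c : {c : ℂ // c ∈ s (K + j)},
              Metric.ediam (closedBall (c : ℂ) (2 * (1 / 2 : ℝ) ^ (K + j))) ^ (d : ℝ)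
            ≤ ∑ _c : {c : ℂ // c ∈ s (K + j)},
              ENNReal.ofReal (4 * (1 / 2 : ℝ) ^ (K + j)) ^ (d : ℝ) := by
              refine Finset.sum_le_sum fun c _ => ?_
              refine ENNReal.rpow_le_rpow ((ediam_cb _ _).trans ?_) hd.le
              apply ENNReal.ofReal_le_ofReal
              linarith
          _ = _ := by
              rw [Finset.sum_const, nsmul_eq_mul, Finset.card_univ, Fintype.card_coe]
    _ ≤ _ := ENNReal.tsum_comp_le_tsum_of_injective (add_right_injective K)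
        (fun k => ((s k).card : ENNReal) * ENNReal.ofReal (4 * (1 / 2 : ℝ) ^ k) ^ (d : ℝ))

end

end Pool.Agent.Y271.CO
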