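import Mathlib

/-!
# The determinant `det (1 - κ M)` as a polynomial in `κ`
-/

set_option autoImplicit false

open MeasureTheory Set Metric Filter Topology Matrix Polynomial

namespace Pool.Agent.Y271.CO

variable {n : ℕ}

theorem eval_rev (M : Matrix (Fin n) (Fin n) ℂ) (κ : ℂ) :
    (M.charpolyRev).eval κ = (1 - κ • M).det := by
  rw [Matrix.charpolyRev, ← Polynomial.coe_evalRingHom, RingHom.map_det]
  congr 1
  ext i j
  rcases eq_or_ne i j with h | h
  · subst h
    simp [Matrix.sub_apply, Matrix.smul_apply]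
    exact mul_comm _ _
  · simp [h, Matrix.sub_apply, Matrix.smul_apply]
    exact mul_comm _ _

theorem natDegree_rev (M : Matrix (Fin n) (Fin n) ℂ) : (M.charpolyRev).natDegree ≤ n := by
  rw [← Matrix.reverse_charpoly]
  refine (Polynomial.reverse_natDegree_le _).trans ?_
  rw [Matrix.charpoly_natDegree_eq_dim, Fintype.card_fin]

theorem rev_ne (M : Matrix (Fin n) (Fin n) ℂ) : M.charpolyRev ≠ 0 := by
  intro h
  have := Matrix.eval_charpolyRev (M := M)
  rw [h, Polynomial.eval_zero] at this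
  exact zero_ne_one this

theorem posLog_prod_le (s : Multiset ℝ) : Real.posLog s.prod ≤ (s.map Real.posLog).sum := by
  induction s using Multiset.induction_on with
  | empty => simp [Real.posLog_one]
  | cons a s ih =>
    rw [Multiset.prod_cons, Multiset.map_cons, Multiset.sum_cons]
    exact Real.posLog_mul.trans (by gcongr)

/-- `κ` is within `2⁻ᵏ` of a zero of the determinant -/
def hit (M : Matrix (Fin n) (Fin n) ℂ) (κ : ℂ) (k : ℕ) : Prop :=
  ∃ ρ : ℂ, ‖κ - ρ‖ ≤ (1 / 2 : ℝ) ^ k ∧ (1 - ρ • M).det = 0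

/-- one root -/
theorem one_root {d : ℝ} (hd : 0 < d) :
    ENNReal.ofReal (Real.posLog d⁻¹) ≤
      ∑' k : ℕ, (if d ≤ (1 / 2 : ℝ) ^ k then ENNReal.ofReal (Real.log 2) else 0) := by
  rcases le_or_gt d 1 with h1 | h1
  · obtain ⟨j, hj1, hj2⟩ := exists_nat_pow_near_of_lt_one hd h1
      (by norm_num : (0 : ℝ) < 1 / 2) (by norm_num)
    have h2 : Real.posLog d⁻¹ ≤ (j + 1 : ℕ) * Real.log 2 := by
      rw [Real.posLog_eq_log (by rw [abs_of_pos (inv_pos.2 hd)]; exact (one_le_inv₀ hd).2 h1)]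
      rw [← Real.log_pow]
      apply Real.log_le_log (inv_pos.2 hd)
      have h3 : ((1 / 2 : ℝ) ^ (j + 1))⁻¹ = 2 ^ (j + 1) := by
        rw [one_div, inv_pow, inv_inv]
      rw [← h3]
      exact inv_anti₀ (by positivity) hj1.le
    calc ENNReal.ofReal (Real.posLog d⁻¹) ≤ ENNReal.ofReal ((j + 1 : ℕ) * Real.log 2) :=
          ENNReal.ofReal_le_ofReal h2
      _ = ∑ k ∈ Finset.range (j + 1), ENNReal.ofReal (Real.log 2) := by
          rw [Finset.sum_const, Finset.card_range, nsmul_eq_mul,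
            ENNReal.ofReal_mul (Nat.cast_nonneg _), ENNReal.ofReal_natCast]
      _ = ∑ k ∈ Finset.range (j + 1),
            (if d ≤ (1 / 2 : ℝ) ^ k then ENNReal.ofReal (Real.log 2) else 0) := by
          refine Finset.sum_congr rfl fun k hk => ?_
          rw [if_pos]
          refine hj2.trans ?_
          apply pow_le_pow_of_le_one (by norm_num) (by norm_num)
          have := Finset.mem_range.1 hk
          omega
      _ ≤ _ := ENNReal.sum_le_tsum _
  · have h2 : Real.posLog d⁻¹ = 0 := by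
      rw [Real.posLog_eq_zero_iff, abs_of_pos (inv_pos.2 hd)]
      exact inv_le_one_of_one_le₀ h1.le
    rw [h2, ENNReal.ofReal_zero]
    exact zero_le

/-- the factor of one root -/
theorem factor {κ ρ : ℂ} {r : ℝ} (hr : ‖κ‖ ≤ r) (h : κ - ρ ≠ 0) :
    Real.posLog (‖ρ‖ / ‖κ - ρ‖) ≤ (Real.log 2 + Real.posLog r) + Real.posLog ‖κ - ρ‖⁻¹ := by
  have h1 : 0 < ‖κ - ρ‖ := norm_pos_iff.2 h
  have h2 : ‖ρ‖ / ‖κ - ρ‖ ≤ 1 + r * ‖κ - ρ‖⁻¹ := by
    rw [div_le_iff₀ h1, add_mul, one_mul, mul_assoc, inv_mul_cancel₀ h1.ne', mul_one]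
    have h3 : ρ = κ - (κ - ρ) := by ring
    calc ‖ρ‖ = ‖κ - (κ - ρ)‖ := by rw [← h3]
      _ ≤ ‖κ‖ + ‖κ - ρ‖ := norm_sub_le _ _
      _ ≤ ‖κ - ρ‖ + r := by linarith
  have h3 : Real.posLog (1 + r * ‖κ - ρ‖⁻¹) ≤ Real.log 2 + Real.posLog 1 +
      Real.posLog (r * ‖κ - ρ‖⁻¹) := Real.posLog_add
  have h4 : Real.posLog (r * ‖κ - ρ‖⁻¹) ≤ Real.posLog r + Real.posLog ‖κ - ρ‖⁻¹ :=
    Real.posLog_mul
  have h5 := Real.posLog_le_posLog (by positivity) h2
  rw [Real.posLog_one] at h3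
  linarith

theorem det_bound (M : Matrix (Fin n) (Fin n) ℂ) {κ : ℂ} {r : ℝ} (hr : ‖κ‖ ≤ r)
    (hD : (1 - κ • M).det ≠ 0) :
    ENNReal.ofReal (Real.posLog ‖(1 - κ • M).det‖⁻¹) ≤
      n * (ENNReal.ofReal (Real.log 2 + Real.posLog r) +
        ∑' k : ℕ, (by classical exact if hit M κ k then ENNReal.ofReal (Real.log 2) else 0)) := by
  classical
  set p := M.charpolyRev with hp
  have hs : p.Splits := IsAlgClosed.splits p
  have e0 : (1 : ℂ) = p.leadingCoeff * (p.roots.map (fun ρ => 0 - ρ)).prod := by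
    rw [← hs.eval_eq_prod_roots, hp, Matrix.eval_charpolyRev]
  have eκ : (1 - κ • M).det = p.leadingCoeff * (p.roots.map (fun ρ => κ - ρ)).prod := by
    rw [← hs.eval_eq_prod_roots, hp, eval_rev]
  have hroot : ∀ ρ ∈ p.roots, (1 - ρ • M).det = 0 := by
    intro ρ hρ
    have := (Polynomial.mem_roots (rev_ne M)).1 hρ
    rw [← eval_rev]
    exact this
  have hne : ∀ ρ ∈ p.roots, κ - ρ ≠ 0 := by
    intro ρ hρ h0
    have : κ = ρ := sub_eq_zero.1 h0
    subst this
    exact hD (hroot _ hρ)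
  have hlead : p.leadingCoeff ≠ 0 := by
    rw [Polynomial.leadingCoeff_ne_zero]
    exact rev_ne M
  -- the norm of the inverse
  have e1 : ‖(1 - κ • M).det‖⁻¹ = (p.roots.map (fun ρ => ‖ρ‖ / ‖κ - ρ‖)).prod := by
    have e2 : (p.roots.map (fun ρ => ‖ρ‖ / ‖κ - ρ‖)).prod =
        (p.roots.map (fun ρ => ‖ρ‖)).prod / (p.roots.map (fun ρ => ‖κ - ρ‖)).prod :=
      Multiset.prod_map_div
    have e3 : ‖(p.roots.map (fun ρ => κ - ρ)).prod‖ = (p.roots.map (fun ρ => ‖κ - ρ‖)).prod := by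
      show (normHom : ℂ →*₀ ℝ) (p.roots.map (fun ρ => κ - ρ)).prod = _
      rw [map_multiset_prod, Multiset.map_map]
      rfl
    have e4 : ‖(p.roots.map (fun ρ => 0 - ρ)).prod‖ = (p.roots.map (fun ρ => ‖ρ‖)).prod := by
      show (normHom : ℂ →*₀ ℝ) (p.roots.map (fun ρ => 0 - ρ)).prod = _
      rw [map_multiset_prod, Multiset.map_map]
      congr 1
      apply Multiset.map_congr rfl
      intro ρ _
      simp
    rw [e2, ← e3, ← e4, eκ, norm_mul]
    have e5 : ‖p.leadingCoeff‖ * ‖(p.roots.map (fun ρ => 0 - ρ)).prod‖ = 1 := by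
      rw [← norm_mul, ← e0, norm_one]
    have e6 : (p.roots.map (fun ρ => κ - ρ)).prod ≠ 0 := by
      apply Multiset.prod_ne_zero
      intro h0
      obtain ⟨ρ, hρ, h1⟩ := Multiset.mem_map.1 h0
      exact hne ρ hρ h1
    have e7 : 0 < ‖p.leadingCoeff‖ := norm_pos_iff.2 hlead
    have e8 : 0 < ‖(p.roots.map (fun ρ => κ - ρ)).prod‖ := norm_pos_iff.2 e6
    field_simp
    linarith
  have e9 : Real.posLog ‖(1 - κ • M).det‖⁻¹ ≤
      (p.roots.map (fun ρ => (Real.log 2 + Real.posLog r) + Real.posLog ‖κ - ρ‖⁻¹)).sum := by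
    rw [e1]
    refine (posLog_prod_le _).trans ?_
    rw [Multiset.map_map]
    apply Multiset.sum_map_le_sum_map
    intro ρ hρ
    exact factor hr (hne ρ hρ)
  have hc : 0 ≤ Real.log 2 + Real.posLog r := add_nonneg (Real.log_nonneg (by norm_num))
    Real.posLog_nonneg
  obtain ⟨B, hB⟩ : ∃ B : ENNReal, B = ENNReal.ofReal (Real.log 2 + Real.posLog r) +
      ∑' k : ℕ, (if hit M κ k then ENNReal.ofReal (Real.log 2) else 0) := ⟨_, rfl⟩
  have hterm : ∀ ρ ∈ p.roots,
      ENNReal.ofReal ((Real.log 2 + Real.posLog r) + Real.posLog ‖κ - ρ‖⁻¹) ≤ B := by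
    intro ρ hρ
    rw [ENNReal.ofReal_add hc Real.posLog_nonneg, hB]
    refine add_le_add le_rfl ?_
    refine (one_root (norm_pos_iff.2 (hne ρ hρ))).trans ?_
    refine ENNReal.tsum_le_tsum fun k => ?_
    by_cases hk : ‖κ - ρ‖ ≤ (1 / 2 : ℝ) ^ k
    · rw [if_pos hk, if_pos ⟨ρ, hk, hroot ρ hρ⟩]
    · rw [if_neg hk]
      exact zero_le
  have hsum : ∀ s : Multiset ℂ, (∀ ρ ∈ s, ρ ∈ p.roots) →
      ENNReal.ofReal ((s.map (fun ρ => (Real.log 2 + Real.posLog r) +
        Real.posLog ‖κ - ρ‖⁻¹)).sum) ≤ (Multiset.card s : ENNReal) * B := by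
    intro s
    induction s using Multiset.induction_on with
    | empty => intro _; simp
    | cons a s ih =>
      intro hs'
      rw [Multiset.map_cons, Multiset.sum_cons, Multiset.card_cons, Nat.cast_add, Nat.cast_one,
        add_mul, one_mul]
      refine ENNReal.ofReal_add_le.trans ?_
      rw [add_comm]
      exact add_le_add (ih fun ρ hρ => hs' ρ (Multiset.mem_cons_of_mem hρ))
        (hterm a (hs' a (Multiset.mem_cons_self a s)))
  refine (ENNReal.ofReal_le_ofReal e9).trans ((hsum p.roots fun ρ h => h).trans ?_)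
  have hcard : (Multiset.card p.roots : ENNReal) ≤ n := by
    exact_mod_cast (Polynomial.card_roots' p).trans (natDegree_rev M)
  rw [← hB]
  exact mul_le_mul_left hcard B

/-- the roots are few -/
theorem few (M : Matrix (Fin n) (Fin n) ℂ) (s : Finset ℂ)
    (hs : ∀ ρ ∈ s, (1 - ρ • M).det = 0) : s.card ≤ n := by
  have h1 : s.val ≤ M.charpolyRev.roots := by
    rw [Multiset.le_iff_subset s.nodup]
    intro ρ hρ
    rw [Polynomial.mem_roots (rev_ne M)]
    show (M.charpolyRev).eval ρ = 0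
    rw [eval_rev]
    exact hs ρ hρ
  exact (Multiset.card_le_card h1).trans ((Polynomial.card_roots' _).trans (natDegree_rev M))

end Pool.Agent.Y271.CO
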