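import Pool.Agent.Y271.CO.Res
import Pool.Agent.Y271.CO.Poly

/-!
# Bound of the resolvent of the perturbed operator
-/

set_option autoImplicit false

open MeasureTheory Set Metric Filter Topology Matrix

namespace Pool.Agent.Y271.CO

variable {X : Type} [NormedAddCommGroup X] [NormedSpace ℂ X] {n : ℕ}

theorem norm_op (N : Matrix (Fin n) (Fin n) ℂ) {c : ℝ} (hc : 0 ≤ c) (h : ∀ i j, ‖N i j‖ ≤ c) :
    ‖op N‖ ≤ n * c := by
  refine ContinuousLinearMap.opNorm_le_bound _ (by positivity) fun v => ?_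
  rw [pi_norm_le_iff_of_nonneg (by positivity)]
  intro i
  rw [op_apply]
  show ‖∑ j, N i j * v j‖ ≤ _
  calc ‖∑ j, N i j * v j‖ ≤ ∑ j, ‖N i j * v j‖ := norm_sum_le _ _
    _ ≤ ∑ _j : Fin n, c * ‖v‖ := by
        refine Finset.sum_le_sum fun j _ => ?_
        rw [norm_mul]
        exact mul_le_mul (h i j) (norm_le_pi_norm v j) (norm_nonneg _) hc
    _ = n * c * ‖v‖ := by
        rw [Finset.sum_const, Finset.card_univ, Fintype.card_fin, nsmul_eq_mul]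
        ring

theorem inv_entry (M : Matrix (Fin n) (Fin n) ℂ) {κ : ℂ} {r b : ℝ} (hr : ‖κ‖ ≤ r)
    (hb0 : 0 ≤ b) (hb : ∀ i j, ‖M i j‖ ≤ b) (i j : Fin n) :
    ‖(1 - κ • M)⁻¹ i j‖ ≤ ‖(1 - κ • M).det‖⁻¹ * (n.factorial * (1 + r * b) ^ n) := by
  have hr0 : 0 ≤ r := (norm_nonneg _).trans hr
  rw [Matrix.inv_def, Matrix.smul_apply, smul_eq_mul, norm_mul, Ring.inverse_eq_inv', norm_inv]
  refine mul_le_mul_of_nonneg_left ?_ (by positivity)
  rw [Matrix.adjugate_apply]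
  have h1 : ∀ i' j', (IsAbsoluteValue.toAbsoluteValue (norm : ℂ → ℝ))
      ((1 - κ • M).updateRow j (Pi.single i 1) i' j') ≤ 1 + r * b := by
    intro i' j'
    show ‖(1 - κ • M).updateRow j (Pi.single i 1) i' j'‖ ≤ 1 + r * b
    have hrb : 0 ≤ r * b := mul_nonneg hr0 hb0
    by_cases hi : i' = j
    · subst hi
      rw [Matrix.updateRow_self]
      by_cases hj : j' = i
      · subst hj
        rw [Pi.single_eq_same, norm_one]
        linarith
      · rw [Pi.single_eq_of_ne hj, norm_zero]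
        linarith
    · rw [Matrix.updateRow_ne hi, Matrix.sub_apply, Matrix.smul_apply, smul_eq_mul]
      refine (norm_sub_le _ _).trans ?_
      rw [norm_mul]
      have h2 : ‖(1 : Matrix (Fin n) (Fin n) ℂ) i' j'‖ ≤ 1 := by
        rw [Matrix.one_apply]
        split_ifs
        · rw [norm_one]
        · rw [norm_zero]; exact zero_le_one
      have h3 := mul_le_mul hr (hb i' j') (norm_nonneg _) hr0
      linarith
  have h4 := Matrix.det_le h1
  rw [Fintype.card_fin, nsmul_eq_mul] at h4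
  exact h4

theorem res_bound (F : X →L[ℂ] (Fin n → ℂ)) (J : (Fin n → ℂ) →L[ℂ] X) (r : ℝ) (hr0 : 0 ≤ r) :
    ∃ C : ℝ, 0 ≤ C ∧ ∀ (A : X →L[ℂ] X) (κ z : ℂ), ‖κ‖ ≤ r → z ∈ resolventSet ℂ A →
      (1 - κ • Mx F J (resolvent A z)).det ≠ 0 →
      z ∈ resolventSet ℂ (A + κ • J.comp F) ∧
      Real.posLog ‖resolvent (A + κ • J.comp F) z‖ ≤
        C + (n + 3) * Real.posLog ‖resolvent A z‖ +
          Real.posLog ‖(1 - κ • Mx F J (resolvent A z)).det‖⁻¹ := by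
  refine ⟨Real.log 2 + Real.posLog (r * ‖J‖ * ‖F‖ * (n * n.factorial)) +
    n * (Real.log 2 + Real.posLog (r * (‖F‖ * ‖J‖))), ?_, ?_⟩
  · have h1 : 0 ≤ Real.log 2 := Real.log_nonneg (by norm_num)
    have h2 : 0 ≤ Real.posLog (r * ‖J‖ * ‖F‖ * (n * n.factorial)) := Real.posLog_nonneg
    have h3 : 0 ≤ Real.posLog (r * (‖F‖ * ‖J‖)) := Real.posLog_nonneg
    positivity
  intro A κ z hr hz hD
  obtain ⟨M, hM⟩ : ∃ M, M = Mx F J (resolvent A z) := ⟨_, rfl⟩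
  obtain ⟨b, hb⟩ : ∃ b, b = ‖F‖ * ‖J‖ * ‖resolvent A z‖ := ⟨_, rfl⟩
  have hb0 : 0 ≤ b := by rw [hb]; positivity
  rw [← hM] at hD ⊢
  have hu : IsUnit (1 - κ • M).det := isUnit_iff_ne_zero.2 hD
  have hN1 : (1 - κ • M) * (1 - κ • M)⁻¹ = 1 := Matrix.mul_nonsing_inv _ hu
  have hN2 : (1 - κ • M)⁻¹ * (1 - κ • M) = 1 := Matrix.nonsing_inv_mul _ hu
  obtain ⟨hz', hres⟩ := res_formula A F J κ z hz (1 - κ • M)⁻¹ (by rw [← hM]; exact hN1)
    (by rw [← hM]; exact hN2)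
  refine ⟨hz', ?_⟩
  rw [hres]
  set R := resolvent A z with hR
  set c := ‖(1 - κ • M).det‖⁻¹ * (n.factorial * (1 + r * b) ^ n) with hc
  have hrb : 0 ≤ r * b := mul_nonneg hr0 hb0
  have hc0 : 0 ≤ c := by
    rw [hc]
    positivity
  have hop : ‖op (1 - κ • M)⁻¹‖ ≤ n * c := norm_op _ hc0 fun i j =>
    inv_entry M hr hb0 (fun i j => by rw [hM, hb]; exact norm_Mx F J _ i j) i j
  have h1 : ‖R + κ • R.comp (J.comp ((op (1 - κ • M)⁻¹).comp (F.comp R)))‖ ≤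
      ‖R‖ + (r * ‖J‖ * ‖F‖ * (n * n.factorial)) * ‖R‖ * ‖R‖ * (1 + r * b) ^ n *
        ‖(1 - κ • M).det‖⁻¹ := by
    refine (norm_add_le _ _).trans ?_
    refine add_le_add le_rfl ?_
    rw [norm_smul]
    have h2 : ‖R.comp (J.comp ((op (1 - κ • M)⁻¹).comp (F.comp R)))‖ ≤
        ‖R‖ * (‖J‖ * ((n * c) * (‖F‖ * ‖R‖))) := by
      refine (ContinuousLinearMap.opNorm_comp_le _ _).trans ?_
      refine mul_le_mul_of_nonneg_left ?_ (norm_nonneg _)
      refine (ContinuousLinearMap.opNorm_comp_le _ _).trans ?_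
      refine mul_le_mul_of_nonneg_left ?_ (norm_nonneg _)
      refine (ContinuousLinearMap.opNorm_comp_le _ _).trans ?_
      refine mul_le_mul hop (ContinuousLinearMap.opNorm_comp_le _ _) (norm_nonneg _)
        (by positivity)
    calc ‖κ‖ * _ ≤ r * (‖R‖ * (‖J‖ * ((n * c) * (‖F‖ * ‖R‖)))) :=
          mul_le_mul hr h2 (norm_nonneg _) hr0
      _ = _ := by rw [hc]; ring
  refine (Real.posLog_le_posLog (norm_nonneg _) h1).trans ?_
  have p1 := Real.posLog_add (x := ‖R‖) (y := (r * ‖J‖ * ‖F‖ * (n * n.factorial)) * ‖R‖ * ‖R‖ *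
    (1 + r * b) ^ n * ‖(1 - κ • M).det‖⁻¹)
  have p2 := Real.posLog_mul (x := (r * ‖J‖ * ‖F‖ * (n * n.factorial)) * ‖R‖ * ‖R‖ *
    (1 + r * b) ^ n) (y := ‖(1 - κ • M).det‖⁻¹)
  have p3 := Real.posLog_mul (x := (r * ‖J‖ * ‖F‖ * (n * n.factorial)) * ‖R‖ * ‖R‖)
    (y := (1 + r * b) ^ n)
  have p4 := Real.posLog_mul (x := (r * ‖J‖ * ‖F‖ * (n * n.factorial)) * ‖R‖) (y := ‖R‖)
  have p5 := Real.posLog_mul (x := (r * ‖J‖ * ‖F‖ * (n * n.factorial))) (y := ‖R‖)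
  have p6 : Real.posLog ((1 + r * b) ^ n) = n * Real.posLog (1 + r * b) := Real.posLog_pow n _
  have p7 := Real.posLog_add (x := 1) (y := r * b)
  have p8 : r * b = (r * (‖F‖ * ‖J‖)) * ‖R‖ := by rw [hb]; ring
  have p9 := Real.posLog_mul (x := r * (‖F‖ * ‖J‖)) (y := ‖R‖)
  rw [Real.posLog_one, p8] at p7
  rw [← p8] at p9
  rw [p8] at p9
  have p10 : (n : ℝ) * Real.posLog (1 + r * b) ≤
      n * (Real.log 2 + Real.posLog (r * (‖F‖ * ‖J‖)) + Real.posLog ‖R‖) := by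
    apply mul_le_mul_of_nonneg_left _ (Nat.cast_nonneg n)
    rw [p8]
    linarith
  rw [p6] at p3
  nlinarith [p1, p2, p3, p4, p5, p10]

end Pool.Agent.Y271.CO
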