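import Pool.Agent.Y271.CO.Dim
import Pool.Agent.Y271.CO.Acc
import Pool.Agent.W610.HY.Cor
import Pool.Agent.W610.HY.Reduct
import Pool.Agent.W19.HY.RES

/-!
# Log-integrability of the resolvent of `A + κ K` for most `κ`
-/

set_option autoImplicit false

open MeasureTheory Set Metric Filter Topology Matrix

namespace Pool.Agent.Y271.CO

variable {X : Type} [NormedAddCommGroup X] [NormedSpace ℂ X] [CompleteSpace X] {n : ℕ}

theorem summable_wgt : Summable wgt := by
  have h := (summable_nat_add_iff 1).2 (Real.summable_one_div_nat_pow.2 (by norm_num : 1 < 2))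
  refine h.congr fun k => ?_
  unfold wgt
  push_cast
  rfl

theorem sum_ne_top {u : ℕ → ENNReal} {B : ENNReal} (hB : B ≠ ⊤) (h1 : ∀ k, u k ≤ B)
    (h2 : ∀ᶠ k in atTop, u k ≤ ENNReal.ofReal (wgt k)) : ∑' k, u k ≠ ⊤ := by
  obtain ⟨K, hK⟩ := eventually_atTop.1 h2
  have h3 : ∑' k, u k ≤ ∑' k, ((if k < K then B else 0) + ENNReal.ofReal (wgt k)) := by
    refine ENNReal.tsum_le_tsum fun k => ?_
    by_cases hk : k < K
    · rw [if_pos hk]
      exact (h1 k).trans (le_add_right le_rfl)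
    · rw [if_neg hk, zero_add]
      exact hK k (not_lt.1 hk)
  rw [ENNReal.tsum_add] at h3
  refine ne_top_of_le_ne_top (ENNReal.add_ne_top.2 ⟨?_, summable_wgt.tsum_ofReal_ne_top⟩) h3
  rw [tsum_eq_sum (s := Finset.range K) (fun k hk => if_neg (by simpa using hk))]
  refine (ENNReal.sum_lt_top.2 fun k _ => ?_).ne
  split_ifs
  · exact hB.lt_top
  · exact ENNReal.zero_lt_top

/-- the good coupling constants -/
theorem good (A : X →L[ℂ] X) (F : X →L[ℂ] (Fin n → ℂ)) (J : (Fin n → ℂ) →L[ℂ] X)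
    {U : Set ℂ} (hU : IsOpen U) (hUf : volume U ≠ ⊤) (h0 : volume (spectrum ℂ A ∩ U) = 0)
    (hI : IntegrableOn (fun z : ℂ => Real.posLog ‖resolvent A z‖) U) (κ : ℂ)
    (hκ : ¬ ∃ᶠ k in atTop, ENNReal.ofReal (wgt k) ≤ volume (Z A F J U κ k)) :
    volume (spectrum ℂ (A + κ • J.comp F) ∩ U) = 0 ∧
      IntegrableOn (fun z : ℂ => Real.posLog ‖resolvent (A + κ • J.comp F) z‖) U := by
  classical
  obtain ⟨C, hC0, hC⟩ := res_bound F J ‖κ‖ (norm_nonneg κ)
  have hev : ∀ᶠ k in atTop, volume (Z A F J U κ k) ≤ ENNReal.ofReal (wgt k) := by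
    rw [not_frequently] at hκ
    filter_upwards [hκ] with k hk
    exact (not_le.1 hk).le
  -- the zeros
  have hzero : volume {z | z ∈ U ∩ resolventSet ℂ A ∧
      (1 - κ • Mx F J (resolvent A z)).det = 0} = 0 := by
    have h1 : ∀ k, volume {z | z ∈ U ∩ resolventSet ℂ A ∧
        (1 - κ • Mx F J (resolvent A z)).det = 0} ≤ volume (Z A F J U κ k) := by
      intro k
      refine measure_mono fun z hz => ⟨hz.1, κ, ?_, hz.2⟩
      rw [sub_self, norm_zero]
      positivity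
    have h2 : Tendsto (fun k => ENNReal.ofReal (wgt k)) atTop (𝓝 0) := by
      have := ENNReal.tendsto_ofReal summable_wgt.tendsto_atTop_zero
      rwa [ENNReal.ofReal_zero] at this
    refine le_antisymm (ge_of_tendsto h2 ?_) zero_le
    filter_upwards [hev] with k hk
    exact (h1 k).trans hk
  have hin : ∀ z ∈ U, z ∈ resolventSet ℂ A → (1 - κ • Mx F J (resolvent A z)).det ≠ 0 →
      z ∈ resolventSet ℂ (A + κ • J.comp F) := fun z _ hz hd => (hC A κ z le_rfl hz hd).1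
  have hnull : volume (spectrum ℂ (A + κ • J.comp F) ∩ U) = 0 := by
    refine measure_mono_null (t := (spectrum ℂ A ∩ U) ∪ {z | z ∈ U ∩ resolventSet ℂ A ∧
      (1 - κ • Mx F J (resolvent A z)).det = 0}) ?_ (measure_union_null h0 hzero)
    rintro z ⟨hz, hzU⟩
    by_cases hzA : z ∈ spectrum ℂ A
    · exact Or.inl ⟨hzA, hzU⟩
    · right
      have hzA' : z ∈ resolventSet ℂ A := by
        by_contra h
        exact hzA h
      refine ⟨⟨hzU, hzA'⟩, ?_⟩
      by_contra hd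
      exact hz (hin z hzU hzA' hd)
  refine ⟨hnull, ?_⟩
  have hae : ∀ᵐ z ∂(volume.restrict U), z ∈ resolventSet ℂ A ∧
      (1 - κ • Mx F J (resolvent A z)).det ≠ 0 := by
    rw [ae_restrict_iff' hU.measurableSet]
    have h1 : volume ((spectrum ℂ A ∩ U) ∪ {z | z ∈ U ∩ resolventSet ℂ A ∧
      (1 - κ • Mx F J (resolvent A z)).det = 0}) = 0 := measure_union_null h0 hzero
    filter_upwards [measure_eq_zero_iff_ae_notMem.1 h1] with z hz hzU
    have hzA : z ∈ resolventSet ℂ A := by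
      by_contra h
      exact hz (Or.inl ⟨h, hzU⟩)
    refine ⟨hzA, fun hd => hz (Or.inr ⟨⟨hzU, hzA⟩, hd⟩)⟩
  have hmeas : StronglyMeasurable (fun z : ℂ => resolvent (A + κ • J.comp F) z) :=
    Pool.Agent.W610.HY.Fin.hMEAS (X →L[ℂ] X) (A + κ • J.comp F)
  refine ⟨(Real.continuous_posLog.measurable.comp hmeas.norm.measurable).aestronglyMeasurable, ?_⟩
  obtain ⟨c, hc⟩ : ∃ c, c = ENNReal.ofReal (Real.log 2 + Real.posLog ‖κ‖) := ⟨_, rfl⟩
  have hle : ∀ᵐ z ∂(volume.restrict U), ‖Real.posLog ‖resolvent (A + κ • J.comp F) z‖‖ₑ ≤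
      (ENNReal.ofReal C + (n + 3) * ENNReal.ofReal (Real.posLog ‖resolvent A z‖)) +
        n * (c + ∑' k : ℕ, (Z A F J U κ k).indicator (fun _ => ENNReal.ofReal (Real.log 2)) z) := by
    filter_upwards [hae, ae_restrict_mem hU.measurableSet] with z hz hzU
    have h1 := (hC A κ z le_rfl hz.1 hz.2).2
    rw [Real.enorm_of_nonneg Real.posLog_nonneg]
    refine (ENNReal.ofReal_le_ofReal h1).trans ?_
    refine ENNReal.ofReal_add_le.trans ?_
    refine add_le_add ?_ ?_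
    · refine ENNReal.ofReal_add_le.trans ?_
      refine add_le_add le_rfl ?_
      rw [ENNReal.ofReal_mul (by positivity)]
      refine mul_le_mul_left ?_ _
      rw [ENNReal.ofReal_add (Nat.cast_nonneg n) (by norm_num), ENNReal.ofReal_natCast]
      simp
    · refine (det_bound _ le_rfl hz.2).trans ?_
      rw [hc]
      refine mul_le_mul_right ?_ _
      refine add_le_add le_rfl ?_
      refine ENNReal.tsum_le_tsum fun k => ?_
      by_cases hk : hit (Mx F J (resolvent A z)) κ k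
      · rw [if_pos hk, indicator_of_mem (show z ∈ Z A F J U κ k from ⟨⟨hzU, hz.1⟩, hk⟩)]
      · rw [if_neg hk]
        exact zero_le
  refine (lintegral_mono_ae hle).trans_lt ?_
  have hm1 : ∀ k, Measurable ((Z A F J U κ k).indicator
      (fun _ => ENNReal.ofReal (Real.log 2)) : ℂ → ENNReal) := fun k =>
    measurable_const.indicator (meas_Z A F J hU κ k)
  have hm2 : Measurable fun z : ℂ => (n : ENNReal) * (c + ∑' k : ℕ,
      (Z A F J U κ k).indicator (fun _ => ENNReal.ofReal (Real.log 2)) z) :=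
    (measurable_const.add (Measurable.tsum hm1)).const_mul _
  rw [lintegral_add_right _ hm2]
  refine ENNReal.add_lt_top.2 ⟨?_, ?_⟩
  · rw [lintegral_add_left measurable_const]
    refine ENNReal.add_lt_top.2 ⟨?_, ?_⟩
    · rw [lintegral_const, Measure.restrict_apply_univ]
      exact ENNReal.mul_lt_top ENNReal.ofReal_lt_top hUf.lt_top
    · rw [lintegral_const_mul' _ _ (by finiteness)]
      refine ENNReal.mul_lt_top (by finiteness) ?_
      have h2 := hI.2
      refine lt_of_le_of_lt (lintegral_mono fun z => ?_) h2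
      rw [Real.enorm_of_nonneg Real.posLog_nonneg]
  · rw [lintegral_const_mul' _ _ (ENNReal.natCast_ne_top n)]
    refine ENNReal.mul_lt_top (ENNReal.natCast_ne_top n).lt_top ?_
    rw [lintegral_add_left measurable_const]
    refine ENNReal.add_lt_top.2 ⟨?_, ?_⟩
    · rw [lintegral_const, Measure.restrict_apply_univ]
      refine ENNReal.mul_lt_top ?_ hUf.lt_top
      rw [hc]
      exact ENNReal.ofReal_lt_top
    · rw [lintegral_tsum fun k => (hm1 k).aemeasurable]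
      have h3 : ∀ k, ∫⁻ z in U, (Z A F J U κ k).indicator
          (fun _ => ENNReal.ofReal (Real.log 2)) z ≤
          ENNReal.ofReal (Real.log 2) * volume (Z A F J U κ k) := by
        intro k
        rw [lintegral_indicator (meas_Z A F J hU κ k), lintegral_const]
        refine mul_le_mul_right ?_ _
        rw [Measure.restrict_apply_univ]
        exact Measure.restrict_apply_le _ _
      refine (ENNReal.tsum_le_tsum h3).trans_lt ?_
      rw [ENNReal.tsum_mul_left]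
      refine ENNReal.mul_lt_top ENNReal.ofReal_lt_top ?_
      exact (sum_ne_top hUf (fun k => measure_mono fun z hz => hz.1.1) hev).lt_top

/-- `T` has a nontrivial closed hyperinvariant subspace -/
def HasHyper (T : X →L[ℂ] X) : Prop :=
  ∃ V : Submodule ℂ X, IsClosed (V : Set X) ∧ V ≠ ⊥ ∧ V ≠ ⊤ ∧
    ∀ Q : X →L[ℂ] X, Q * T = T * Q → ∀ v ∈ V, Q v ∈ V

theorem main_FJ (A : X →L[ℂ] X) (F : X →L[ℂ] (Fin n → ℂ)) (J : (Fin n → ℂ) →L[ℂ] X)
    {U : Set ℂ} (hU : IsOpen U) (h0 : volume (spectrum ℂ A ∩ U) = 0)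
    (hI : IntegrableOn (fun z : ℂ => Real.posLog ‖resolvent A z‖) U)
    {c₁ c₂ : ℂ} (hc₁ : c₁ ∈ U) (hc₂ : c₂ ∈ U) (hc : c₁ ≠ c₂)
    (ha₁ : AccPt c₁ (𝓟 (spectrum ℂ A))) (ha₂ : AccPt c₂ (𝓟 (spectrum ℂ A))) :
    dimH {κ : ℂ | ¬ HasHyper (A + κ • J.comp F)} = 0 := by
  obtain ⟨V, hV⟩ : ∃ V : Set ℂ, V = U ∩ ball 0 (‖c₁‖ + ‖c₂‖ + 1) := ⟨_, rfl⟩
  have hVU : V ⊆ U := by rw [hV]; exact inter_subset_left
  have hVo : IsOpen V := by rw [hV]; exact hU.inter isOpen_ball
  have hVf : volume V ≠ ⊤ := by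
    refine ne_top_of_le_ne_top (measure_ball_lt_top (μ := (volume : Measure ℂ)) (x := (0 : ℂ)) (r := ‖c₁‖ + ‖c₂‖ + 1)).ne ?_
    rw [hV]
    exact measure_mono inter_subset_right
  have h1V : c₁ ∈ V := by
    rw [hV]
    refine ⟨hc₁, ?_⟩
    rw [mem_ball_zero_iff]
    have := norm_nonneg c₂
    linarith
  have h2V : c₂ ∈ V := by
    rw [hV]
    refine ⟨hc₂, ?_⟩
    rw [mem_ball_zero_iff]
    have := norm_nonneg c₁
    linarith
  have h0V : volume (spectrum ℂ A ∩ V) = 0 :=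
    measure_mono_null (inter_subset_inter_right _ hVU) h0
  have hdim := dim_zero (W := fun κ k => volume (Z A F J V κ k)) (N := n * volume V)
    (ENNReal.mul_ne_top (ENNReal.natCast_ne_top n) hVf)
    (fun k s hs => packing A F J hVo k s hs)
  refine le_antisymm ((dimH_mono fun κ hκ => ?_).trans hdim.le) zero_le
  show ∃ᶠ k in atTop, ENNReal.ofReal (wgt k) ≤ volume (Z A F J V κ k)
  by_contra hcon
  obtain ⟨g1, g2⟩ := good A F J hVo hVf h0V (hI.mono_set hVU) κ hcon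
  exact hκ (Pool.Agent.W610.HY.Cor.glob Pool.Agent.W610.HY.Reduct.loc Pool.Agent.W19.HY.RES.main
    Pool.Agent.W610.HY.Fin.hMEAS (A + κ • J.comp F) V hVo
    ⟨c₁, ⟨persist A F J κ c₁ V hVo h1V h0V ha₁, h1V⟩,
      c₂, ⟨persist A F J κ c₂ V hVo h2V h0V ha₂, h2V⟩, hc⟩ g1 g2)

theorem main (A K : X →L[ℂ] X) (hK : FiniteDimensional ℂ (LinearMap.range (K : X →ₗ[ℂ] X)))
    {U : Set ℂ} (hU : IsOpen U) (h0 : volume (spectrum ℂ A ∩ U) = 0)
    (hI : IntegrableOn (fun z : ℂ => Real.posLog ‖resolvent A z‖) U)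
    {c₁ c₂ : ℂ} (hc₁ : c₁ ∈ U) (hc₂ : c₂ ∈ U) (hc : c₁ ≠ c₂)
    (ha₁ : AccPt c₁ (𝓟 (spectrum ℂ A))) (ha₂ : AccPt c₂ (𝓟 (spectrum ℂ A))) :
    dimH {κ : ℂ | ¬ HasHyper (A + κ • K)} = 0 := by
  obtain ⟨n, F, J, hFJ⟩ : ∃ (n : ℕ) (F : X →L[ℂ] (Fin n → ℂ)) (J : (Fin n → ℂ) →L[ℂ] X),
      K = J.comp F := by
    let R := LinearMap.range (K : X →ₗ[ℂ] X)
    let b := Module.finBasis ℂ R
    let e : R ≃L[ℂ] (Fin (Module.finrank ℂ R) → ℂ) := b.equivFun.toContinuousLinearEquiv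
    let K' : X →L[ℂ] R := K.codRestrict R fun x => LinearMap.mem_range_self _ x
    refine ⟨Module.finrank ℂ R, (e : R →L[ℂ] _).comp K', R.subtypeL.comp (e.symm : _ →L[ℂ] R), ?_⟩
    ext x
    simp [K']
  rw [hFJ]
  exact main_FJ A F J hU h0 hI hc₁ hc₂ hc ha₁ ha₂

end Pool.Agent.Y271.CO
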