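import Pool.Agent.Helper791Fre.Riesz
import Pool.Agent.Y271.CO.Main

/-!
# Isolated points of the spectrum; the Weyl spectrum
-/

set_option autoImplicit false

open MeasureTheory Set Metric Filter Topology Matrix
open Pool.Helper791.Fre

namespace Pool.Agent.Y271.CO

variable {X : Type} [NormedAddCommGroup X] [NormedSpace ℂ X] [CompleteSpace X]

/-- an isolated point of a spectrum with at least two points gives a hyperinvariant subspace -/
theorem isolated (T : X →L[ℂ] X) {c c' : ℂ} (hc : c ∈ spectrum ℂ T) (hc' : c' ∈ spectrum ℂ T)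
    (hne : c' ≠ c) {V : Set ℂ} (hV : IsOpen V) (hcV : c ∈ V)
    (hiso : ∀ z ∈ spectrum ℂ T, z ∈ V → z = c) : HasHyper T := by
  obtain ⟨r₀, hr₀, hball⟩ := Metric.isOpen_iff.1 hV c hcV
  obtain ⟨r, hr⟩ : ∃ r, r = r₀ / 2 := ⟨_, rfl⟩
  have hr0 : 0 < r := by rw [hr]; linarith
  have hP : Pun T c r := by
    intro z hz hzr
    by_contra hu
    have hzs : z ∈ spectrum ℂ T := by
      rw [spectrum.mem_iff]
      exact hu
    apply hz
    apply hiso z hzs
    apply hball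
    rw [mem_ball, dist_eq_norm]
    linarith
  obtain ⟨e, he⟩ : ∃ e, e = la T c r 0 := ⟨_, rfl⟩
  have hid : e * e = e := by rw [he]; exact e_idem hP hr0
  have hne0 : e ≠ 0 := by
    rw [he]
    refine e_ne_zero hP hr0 ?_
    rw [← spectrum.mem_iff]
    exact hc
  have hne1 : e ≠ 1 := by
    intro h1
    obtain ⟨y, h2, h3⟩ := e_off hP hr0 hne
    rw [← he, h1] at h2 h3
    exact hc' ⟨⟨_, y, h3, h2⟩, rfl⟩
  have hcomm : ∀ Q : X →L[ℂ] X, Q * T = T * Q → Q * e = e * Q := by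
    intro Q hQ
    have hg : ContinuousOn (fun z : ℂ => (z - c) ^ (0 : ℤ)) (sphere c r) := zpow_cont hr0 0
    have h1 := mul_rz (a := Q) hP hr0 hg
    have h2 := rz_mul (a := Q) hP hr0 hg
    have h3 : e = rz (fun z => (z - c) ^ (0 : ℤ)) T c r := he
    rw [h3, h1, h2]
    congr 1
    refine circleIntegral.integral_congr hr0.le fun z hz => ?_
    have hu := hP z (sphere_ne hr0 hz) (sphere_norm hz).le
    have h4 : Commute Q (algebraMap ℂ (X →L[ℂ] X) z - T) := by
      refine Commute.sub_right ?_ hQ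
      exact (Algebra.commutes z Q).symm
    have h5 : Q * resolvent T z = resolvent T z * Q := by
      have h6 : (algebraMap ℂ (X →L[ℂ] X) z - T) * resolvent T z = 1 :=
        Ring.mul_inverse_cancel _ hu
      have h7 : resolvent T z * (algebraMap ℂ (X →L[ℂ] X) z - T) = 1 :=
        Ring.inverse_mul_cancel _ hu
      calc Q * resolvent T z = (resolvent T z * (algebraMap ℂ (X →L[ℂ] X) z - T)) *
            (Q * resolvent T z) := by rw [h7, one_mul]
        _ = resolvent T z * (Q * (algebraMap ℂ (X →L[ℂ] X) z - T)) * resolvent T z := by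
            rw [h4.eq]; noncomm_ring
        _ = resolvent T z * Q * ((algebraMap ℂ (X →L[ℂ] X) z - T) * resolvent T z) := by
            noncomm_ring
        _ = resolvent T z * Q := by rw [h6, mul_one]
    show (z - c) ^ (0 : ℤ) • (Q * resolvent T z) = (z - c) ^ (0 : ℤ) • (resolvent T z * Q)
    rw [h5]
  have hid' : ∀ v, e (e v) = e v := fun v => congrArg (fun Z : X →L[ℂ] X => Z v) hid
  refine ⟨LinearMap.ker ((e - 1 : X →L[ℂ] X) : X →ₗ[ℂ] X), ?_, ?_, ?_, ?_⟩
  · exact ContinuousLinearMap.isClosed_ker (e - 1)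
  · intro hbot
    apply hne0
    ext v
    have h1 : e v ∈ LinearMap.ker ((e - 1 : X →L[ℂ] X) : X →ₗ[ℂ] X) := by
      rw [LinearMap.mem_ker]
      show e (e v) - e v = 0
      rw [hid', sub_self]
    rw [hbot, Submodule.mem_bot] at h1
    rw [h1]
    rfl
  · intro htop
    apply hne1
    ext v
    have h1 : v ∈ LinearMap.ker ((e - 1 : X →L[ℂ] X) : X →ₗ[ℂ] X) := by
      rw [htop]; exact Submodule.mem_top
    rw [LinearMap.mem_ker] at h1
    have h2 : e v - v = 0 := h1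
    exact sub_eq_zero.1 h2
  · intro Q hQ v hv
    rw [LinearMap.mem_ker] at hv ⊢
    have h2 : e v - v = 0 := hv
    have h3 : e v = v := sub_eq_zero.1 h2
    have h4 : Q (e v) = e (Q v) := congrArg (fun Z : X →L[ℂ] X => Z v) (hcomm Q hQ)
    show e (Q v) - Q v = 0
    rw [← h4, h3, sub_self]

/-- the Weyl spectrum: the points which are in the spectrum of all finite rank perturbations -/
def weyl (A : X →L[ℂ] X) : Set ℂ :=
  {c | ∀ L : X →L[ℂ] X, FiniteDimensional ℂ (LinearMap.range (L : X →ₗ[ℂ] X)) →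
    c ∈ spectrum ℂ (A + L)}

omit [CompleteSpace X] in
theorem exists_FJ (K : X →L[ℂ] X) (hK : FiniteDimensional ℂ (LinearMap.range (K : X →ₗ[ℂ] X))) :
    ∃ (n : ℕ) (F : X →L[ℂ] (Fin n → ℂ)) (J : (Fin n → ℂ) →L[ℂ] X), K = J.comp F := by
  let R := LinearMap.range (K : X →ₗ[ℂ] X)
  let b := Module.finBasis ℂ R
  let e : R ≃L[ℂ] (Fin (Module.finrank ℂ R) → ℂ) := b.equivFun.toContinuousLinearEquiv
  let K' : X →L[ℂ] R := K.codRestrict R fun x => LinearMap.mem_range_self _ x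
  refine ⟨Module.finrank ℂ R, (e : R →L[ℂ] _).comp K', R.subtypeL.comp (e.symm : _ →L[ℂ] R), ?_⟩
  ext x
  simp [K']

theorem acc_weyl (A : X →L[ℂ] X) {U : Set ℂ} (hU : IsOpen U)
    (h0 : volume (spectrum ℂ A ∩ U) = 0) {c : ℂ} (hcU : c ∈ U)
    (hacc : AccPt c (𝓟 (spectrum ℂ A))) : c ∈ weyl A := by
  intro L hL
  obtain ⟨n, F, J, rfl⟩ := exists_FJ L hL
  have := persist A F J 1 c U hU hcU h0 hacc
  rwa [one_smul] at this

/-- **Main theorem.** -/
theorem main_weyl (A K : X →L[ℂ] X)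
    (hK : FiniteDimensional ℂ (LinearMap.range (K : X →ₗ[ℂ] X)))
    {U : Set ℂ} (hU : IsOpen U) (h0 : volume (spectrum ℂ A ∩ U) = 0)
    (hI : IntegrableOn (fun z : ℂ => Real.posLog ‖resolvent A z‖) U)
    (hU1 : (weyl A ∩ U).Nonempty) (hU2 : (weyl A).Nontrivial) :
    dimH {κ : ℂ | ¬ HasHyper (A + κ • K)} = 0 := by
  obtain ⟨c₁, hc₁, hc₁U⟩ := hU1
  obtain ⟨c₂, hc₂, hc⟩ := hU2.exists_ne c₁
  have hfin : ∀ κ : ℂ, FiniteDimensional ℂ (LinearMap.range ((κ • K : X →L[ℂ] X) : X →ₗ[ℂ] X)) := by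
    intro κ
    have h1 : LinearMap.range ((κ • K : X →L[ℂ] X) : X →ₗ[ℂ] X) ≤
        LinearMap.range (K : X →ₗ[ℂ] X) := by
      rintro _ ⟨v, rfl⟩
      refine ⟨κ • v, ?_⟩
      simp
    exact Submodule.finiteDimensional_of_le h1
  obtain ⟨n, F, J, hFJ⟩ := exists_FJ K hK
  obtain ⟨V, hV⟩ : ∃ V : Set ℂ, V = U ∩ ball 0 (‖c₁‖ + 1) := ⟨_, rfl⟩
  have hVU : V ⊆ U := by rw [hV]; exact inter_subset_left
  have hVo : IsOpen V := by rw [hV]; exact hU.inter isOpen_ball
  have hVf : volume V ≠ ⊤ := by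
    refine ne_top_of_le_ne_top (measure_ball_lt_top (μ := (volume : Measure ℂ))
      (x := (0 : ℂ)) (r := ‖c₁‖ + 1)).ne ?_
    rw [hV]
    exact measure_mono inter_subset_right
  have h1V : c₁ ∈ V := by
    rw [hV]
    refine ⟨hc₁U, ?_⟩
    rw [mem_ball_zero_iff]
    linarith
  have h0V : volume (spectrum ℂ A ∩ V) = 0 :=
    measure_mono_null (inter_subset_inter_right _ hVU) h0
  have hdim := dim_zero (W := fun κ k => volume (Z A F J V κ k)) (N := n * volume V)
    (ENNReal.mul_ne_top (ENNReal.natCast_ne_top n) hVf)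
    (fun k s hs => packing A F J hVo k s hs)
  refine le_antisymm ((dimH_mono fun κ hκ => ?_).trans hdim.le) zero_le
  show ∃ᶠ k in atTop, ENNReal.ofReal (wgt k) ≤ volume (Z A F J V κ k)
  by_contra hcon
  obtain ⟨g1, g2⟩ := good A F J hVo hVf h0V (hI.mono_set hVU) κ hcon
  rw [← hFJ] at g1 g2
  have hs1 : c₁ ∈ spectrum ℂ (A + κ • K) := hc₁ _ (hfin κ)
  have hs2 : c₂ ∈ spectrum ℂ (A + κ • K) := hc₂ _ (hfin κ)
  apply hκ
  by_cases hn : (spectrum ℂ (A + κ • K) ∩ V).Nontrivial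
  · exact Pool.Agent.W610.HY.Cor.glob Pool.Agent.W610.HY.Reduct.loc Pool.Agent.W19.HY.RES.main
      Pool.Agent.W610.HY.Fin.hMEAS (A + κ • K) V hVo hn g1 g2
  · rw [not_nontrivial_iff] at hn
    exact isolated (A + κ • K) hs1 hs2 hc hVo h1V fun z hz hzV => hn ⟨hz, hzV⟩ ⟨hs1, h1V⟩

end Pool.Agent.Y271.CO
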