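import Pool.Agent.Y271.CO.Inv

/-!
# The sets of the points `z` whose determinant has a zero near `κ`
-/

set_option autoImplicit false

open MeasureTheory Set Metric Filter Topology Matrix

namespace Pool.Agent.Y271.CO

variable {X : Type} [NormedAddCommGroup X] [NormedSpace ℂ X] [CompleteSpace X] {n : ℕ}

/-- the points `z` of `U`, outside of the spectrum, for which `det (1 - ρ F R(z) J)` has a zero `ρ` with
`|κ - ρ| ≤ 2⁻ᵏ` -/
def Z (A : X →L[ℂ] X) (F : X →L[ℂ] (Fin n → ℂ)) (J : (Fin n → ℂ) →L[ℂ] X) (U : Set ℂ)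
    (κ : ℂ) (k : ℕ) : Set ℂ :=
  {z | z ∈ U ∩ resolventSet ℂ A ∧ hit (Mx F J (resolvent A z)) κ k}

theorem meas_Z (A : X →L[ℂ] X) (F : X →L[ℂ] (Fin n → ℂ)) (J : (Fin n → ℂ) →L[ℂ] X)
    {U : Set ℂ} (hU : IsOpen U) (κ : ℂ) (k : ℕ) : MeasurableSet (Z A F J U κ k) := by
  obtain ⟨O, hO⟩ : ∃ O, O = U ∩ resolventSet ℂ A := ⟨_, rfl⟩
  have hOo : IsOpen O := by
    rw [hO]
    exact hU.inter (spectrum.isOpen_resolventSet A)
  have hres : ContinuousOn (fun z => resolvent A z) O := by
    intro z hz
    rw [hO] at hz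
    exact (spectrum.hasDerivAt_resolvent_const_left hz.2).continuousAt.continuousWithinAt
  have hc1 : Continuous fun z : O => resolvent A (z : ℂ) := by
    rw [continuousOn_iff_continuous_domRestrict] at hres
    exact hres
  have : CompactSpace (closedBall κ ((1 / 2 : ℝ) ^ k)) :=
    isCompact_iff_compactSpace.1 (isCompact_closedBall κ ((1 / 2 : ℝ) ^ k))
  have hc2 : Continuous fun p : (closedBall κ ((1 / 2 : ℝ) ^ k)) × O =>
      (1 - (p.1 : ℂ) • Mx F J (resolvent A (p.2 : ℂ))).det := by
    apply Continuous.matrix_det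
    apply continuous_matrix
    intro i j
    simp only [Matrix.sub_apply, Matrix.smul_apply, smul_eq_mul]
    refine continuous_const.sub ?_
    refine (continuous_subtype_val.comp continuous_fst).mul ?_
    have h4 : ∀ R : X →L[ℂ] X, Mx F J R i j =
        ((ContinuousLinearMap.proj (R := ℂ) (φ := fun _ : Fin n => ℂ) i).comp
          (F.comp ((ContinuousLinearMap.apply ℂ X (J (Pi.single j 1)))))) R := by
      intro R
      rfl
    simp only [h4]
    exact (ContinuousLinearMap.continuous _).comp (hc1.comp continuous_snd)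
  have hcl : IsClosed {p : (closedBall κ ((1 / 2 : ℝ) ^ k)) × O |
      (1 - (p.1 : ℂ) • Mx F J (resolvent A (p.2 : ℂ))).det = 0} :=
    isClosed_eq hc2 continuous_const
  have himg := (isClosedMap_snd_of_compactSpace (X := closedBall κ ((1 / 2 : ℝ) ^ k)) (Y := O))
    _ hcl
  have hm : MeasurableSet ((fun z : O => (z : ℂ)) '' (Prod.snd '' {p :
      (closedBall κ ((1 / 2 : ℝ) ^ k)) × O |
      (1 - (p.1 : ℂ) • Mx F J (resolvent A (p.2 : ℂ))).det = 0})) :=
    hOo.measurableSet.subtype_image himg.measurableSet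
  convert hm using 1
  ext z
  constructor
  · rintro ⟨hz, ρ, h1, h2⟩
    rw [← hO] at hz
    refine ⟨⟨z, hz⟩, ⟨(⟨ρ, ?_⟩, ⟨z, hz⟩), h2, rfl⟩, rfl⟩
    rw [mem_closedBall, dist_comm, dist_eq_norm]
    exact h1
  · rintro ⟨z', ⟨⟨⟨ρ, hρ⟩, z''⟩, h2, h3⟩, rfl⟩
    refine ⟨?_, ρ, ?_, ?_⟩
    · rw [← hO]
      exact z'.2
    · rw [mem_closedBall, dist_comm, dist_eq_norm] at hρ
      exact hρ
    · have h4 : z'' = z' := h3
      rw [← h4]
      exact h2

/-- pairwise distances larger than `2 · 2⁻ᵏ` -/
def Sep (s : Finset ℂ) (k : ℕ) : Prop :=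
  ∀ a ∈ s, ∀ b ∈ s, a ≠ b → 2 * (1 / 2 : ℝ) ^ k < ‖a - b‖

theorem packing (A : X →L[ℂ] X) (F : X →L[ℂ] (Fin n → ℂ)) (J : (Fin n → ℂ) →L[ℂ] X)
    {U : Set ℂ} (hU : IsOpen U) (k : ℕ) (s : Finset ℂ) (hs : Sep s k) :
    ∑ κ ∈ s, volume (Z A F J U κ k) ≤ n * volume U := by
  classical
  have h1 : ∀ κ ∈ s, volume (Z A F J U κ k) =
      ∫⁻ z in U, (Z A F J U κ k).indicator (fun _ => (1 : ENNReal)) z := by
    intro κ _
    rw [lintegral_indicator (meas_Z A F J hU κ k), Measure.restrict_restrict (meas_Z A F J hU κ k),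
      setLIntegral_one]
    congr 1
    ext z
    exact ⟨fun h => ⟨h, h.1.1⟩, fun h => h.1⟩
  rw [Finset.sum_congr rfl h1, ← lintegral_finsetSum]
  · calc ∫⁻ z in U, ∑ κ ∈ s, (Z A F J U κ k).indicator (fun _ => (1 : ENNReal)) z
        ≤ ∫⁻ _z in U, (n : ENNReal) := by
          refine lintegral_mono fun z => ?_
          have h2 : ∑ κ ∈ s, (Z A F J U κ k).indicator (fun _ => (1 : ENNReal)) z =
              ((s.filter fun κ => z ∈ Z A F J U κ k).card : ENNReal) := by
            rw [Finset.card_filter, Nat.cast_sum]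
            refine Finset.sum_congr rfl fun κ _ => ?_
            by_cases h : z ∈ Z A F J U κ k
            · rw [indicator_of_mem h, if_pos h, Nat.cast_one]
            · rw [indicator_of_notMem h, if_neg h, Nat.cast_zero]
          rw [h2]
          have h3 : ∀ κ ∈ s.filter (fun κ => z ∈ Z A F J U κ k), ∃ ρ : ℂ,
              ‖κ - ρ‖ ≤ (1 / 2 : ℝ) ^ k ∧ (1 - ρ • Mx F J (resolvent A z)).det = 0 := by
            intro κ hκ
            exact (Finset.mem_filter.1 hκ).2.2
          choose! g hg using h3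
          have hinj : Set.InjOn g (s.filter (fun κ => z ∈ Z A F J U κ k) : Finset ℂ) := by
            intro a ha b hb hab
            by_contra hne
            have ha' := Finset.mem_coe.1 ha
            have hb' := Finset.mem_coe.1 hb
            have h5 := hs a (Finset.mem_filter.1 ha').1 b (Finset.mem_filter.1 hb').1 hne
            have h6 := (hg a ha').1
            have h7 := (hg b hb').1
            have h8 : a - b = (a - g a) - (b - g b) := by rw [hab]; ring
            rw [h8] at h5
            have h9 := norm_sub_le (a - g a) (b - g b)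
            linarith
          have h4 := few (Mx F J (resolvent A z))
            ((s.filter fun κ => z ∈ Z A F J U κ k).image g) (by
              intro ρ hρ
              obtain ⟨κ, hκ, rfl⟩ := Finset.mem_image.1 hρ
              exact (hg κ hκ).2)
          rw [Finset.card_image_of_injOn hinj] at h4
          exact Nat.cast_le.2 (by convert h4)
      _ = n * volume U := by rw [lintegral_const, Measure.restrict_apply_univ]
  · intro κ _
    exact measurable_const.indicator (meas_Z A F J hU κ k)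

end Pool.Agent.Y271.CO
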