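import Mathlib

/-!
# Finite rank perturbations: the resolvent
-/

set_option autoImplicit false

open MeasureTheory Set Metric Filter Topology Matrix

namespace Pool.Agent.Y271.CO

variable {X : Type} [NormedAddCommGroup X] [NormedSpace ℂ X] {n : ℕ}

/-- the matrix `F R J` -/
noncomputable def Mx (F : X →L[ℂ] (Fin n → ℂ)) (J : (Fin n → ℂ) →L[ℂ] X) (R : X →L[ℂ] X) :
    Matrix (Fin n) (Fin n) ℂ :=
  fun i j => F (R (J (Pi.single j 1))) i

/-- the operator on `ℂⁿ` of a matrix -/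
noncomputable def op (N : Matrix (Fin n) (Fin n) ℂ) : (Fin n → ℂ) →L[ℂ] (Fin n → ℂ) :=
  LinearMap.toContinuousLinearMap (Matrix.toLin' N)

theorem op_apply (N : Matrix (Fin n) (Fin n) ℂ) (v : Fin n → ℂ) : op N v = N *ᵥ v := by
  simp [op]

theorem op_mul (N N' : Matrix (Fin n) (Fin n) ℂ) : op (N * N') = (op N).comp (op N') := by
  ext v : 1
  simp [op_apply]

theorem op_one : op (1 : Matrix (Fin n) (Fin n) ℂ) = ContinuousLinearMap.id ℂ (Fin n → ℂ) := by
  ext v : 1
  simp [op_apply]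

theorem op_sub_smul (N : Matrix (Fin n) (Fin n) ℂ) (κ : ℂ) :
    op (1 - κ • N) = ContinuousLinearMap.id ℂ (Fin n → ℂ) - κ • op N := by
  ext v : 1
  simp [op_apply, Matrix.sub_mulVec, Matrix.smul_mulVec]

theorem op_Mx (F : X →L[ℂ] (Fin n → ℂ)) (J : (Fin n → ℂ) →L[ℂ] X) (R : X →L[ℂ] X) :
    op (Mx F J R) = F.comp (R.comp J) := by
  apply ContinuousLinearMap.coe_injective
  apply (Pi.basisFun ℂ (Fin n)).ext
  intro j
  ext i
  simp [op_apply, Mx, Pi.basisFun_apply]

theorem norm_Mx (F : X →L[ℂ] (Fin n → ℂ)) (J : (Fin n → ℂ) →L[ℂ] X) (R : X →L[ℂ] X)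
    (i j : Fin n) : ‖Mx F J R i j‖ ≤ ‖F‖ * ‖J‖ * ‖R‖ := by
  unfold Mx
  calc ‖F (R (J (Pi.single j 1))) i‖ ≤ ‖F (R (J (Pi.single j 1)))‖ := norm_le_pi_norm _ i
    _ ≤ ‖F‖ * (‖R‖ * (‖J‖ * ‖(Pi.single j 1 : Fin n → ℂ)‖)) := by
        refine (F.le_opNorm _).trans ?_
        refine mul_le_mul_of_nonneg_left ?_ (norm_nonneg _)
        refine (R.le_opNorm _).trans ?_
        exact mul_le_mul_of_nonneg_left (J.le_opNorm _) (norm_nonneg _)
    _ = ‖F‖ * ‖J‖ * ‖R‖ := by
        rw [Pi.norm_single, norm_one]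
        ring

/-- the resolvent of the perturbed operator -/
theorem res_formula (A : X →L[ℂ] X) (F : X →L[ℂ] (Fin n → ℂ)) (J : (Fin n → ℂ) →L[ℂ] X)
    (κ z : ℂ) (hz : z ∈ resolventSet ℂ A)
    (N : Matrix (Fin n) (Fin n) ℂ) (h1 : (1 - κ • Mx F J (resolvent A z)) * N = 1)
    (h2 : N * (1 - κ • Mx F J (resolvent A z)) = 1) :
    z ∈ resolventSet ℂ (A + κ • J.comp F) ∧
    resolvent (A + κ • J.comp F) z =
      resolvent A z + κ • (resolvent A z).comp (J.comp ((op N).comp (F.comp (resolvent A z)))) := by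
  obtain ⟨R, hR⟩ : ∃ R, R = resolvent A z := ⟨_, rfl⟩
  have hu : IsUnit (algebraMap ℂ (X →L[ℂ] X) z - A) := by
    simpa [spectrum.mem_resolventSet_iff] using hz
  have hRl : R * (algebraMap ℂ (X →L[ℂ] X) z - A) = 1 := by
    rw [hR]; exact Ring.inverse_mul_cancel _ hu
  have hRr : (algebraMap ℂ (X →L[ℂ] X) z - A) * R = 1 := by
    rw [hR]; exact Ring.mul_inverse_cancel _ hu
  rw [← hR] at h1 h2 ⊢
  have e1 : ∀ w, op N w - κ • F (R (J (op N w))) = w := by
    intro w
    have := congrArg (fun Z => op Z w) h1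
    simp only [op_mul, op_sub_smul, op_Mx, op_one] at this
    simpa using this
  have e2 : ∀ w, op N w - κ • op N (F (R (J w))) = w := by
    intro w
    have := congrArg (fun Z => op Z w) h2
    simp only [op_mul, op_sub_smul, op_Mx, op_one] at this
    simpa using this
  set S : X →L[ℂ] X := R + κ • R.comp (J.comp ((op N).comp (F.comp R))) with hS
  have hRl' : ∀ v, R ((algebraMap ℂ (X →L[ℂ] X) z - A) v) = v := by
    intro v
    exact congrArg (fun Z : X →L[ℂ] X => Z v) hRl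
  have hRr' : ∀ v, (algebraMap ℂ (X →L[ℂ] X) z - A) (R v) = v := by
    intro v
    exact congrArg (fun Z : X →L[ℂ] X => Z v) hRr
  have hSr : (algebraMap ℂ (X →L[ℂ] X) z - (A + κ • J.comp F)) * S = 1 := by
    ext v
    have e3 := e1 (F (R v))
    show (algebraMap ℂ (X →L[ℂ] X) z - (A + κ • J.comp F)) (R v + κ • R (J (op N (F (R v))))) = v
    have e4 : ∀ w, (algebraMap ℂ (X →L[ℂ] X) z - (A + κ • J.comp F)) w =
        (algebraMap ℂ (X →L[ℂ] X) z - A) w - κ • J (F w) := by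
      intro w
      simp only [_root_.sub_apply, _root_.add_apply,
        _root_.smul_apply, ContinuousLinearMap.comp_apply]
      abel
    rw [e4, map_add, map_smul, hRr', hRr', map_add, map_smul, map_add, map_smul]
    have e5 : J (op N (F (R v))) = J (F (R v)) + κ • J (F (R (J (op N (F (R v)))))) := by
      rw [← map_smul, ← map_add]
      congr 1
      rw [← sub_eq_iff_eq_add]
      exact e3
    rw [← e5]
    abel
  have hSl : S * (algebraMap ℂ (X →L[ℂ] X) z - (A + κ • J.comp F)) = 1 := by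
    ext v
    have e4 : ∀ w, (algebraMap ℂ (X →L[ℂ] X) z - (A + κ • J.comp F)) w =
        (algebraMap ℂ (X →L[ℂ] X) z - A) w - κ • J (F w) := by
      intro w
      simp only [_root_.sub_apply, _root_.add_apply,
        _root_.smul_apply, ContinuousLinearMap.comp_apply]
      abel
    show R ((algebraMap ℂ (X →L[ℂ] X) z - (A + κ • J.comp F)) v) +
      κ • R (J (op N (F (R ((algebraMap ℂ (X →L[ℂ] X) z - (A + κ • J.comp F)) v))))) = v
    have e6 : R ((algebraMap ℂ (X →L[ℂ] X) z - (A + κ • J.comp F)) v) = v - κ • R (J (F v)) := by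
      rw [e4, map_sub, map_smul, hRl']
    rw [e6]
    have e3 := e2 (F v)
    have e7 : op N (F (v - κ • R (J (F v)))) = F v := by
      rw [map_sub, map_smul, map_sub, map_smul]
      exact e3
    rw [e7]
    abel
  have hunit : IsUnit (algebraMap ℂ (X →L[ℂ] X) z - (A + κ • J.comp F)) :=
    ⟨⟨_, S, hSr, hSl⟩, rfl⟩
  refine ⟨by simpa [spectrum.mem_resolventSet_iff] using hunit, ?_⟩
  show Ring.inverse (algebraMap ℂ (X →L[ℂ] X) z - (A + κ • J.comp F)) = S
  have := Ring.inverse_unit (⟨_, S, hSr, hSl⟩ : (X →L[ℂ] X)ˣ)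
  exact this

end Pool.Agent.Y271.CO
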